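import Mathlib
import Pool.Agent.H72.EQQ.Targets
import Pool.Agent.H50.EQ.CHR

/-!
# MP_7ecdd4_nt, row MOB: the Moebius identity for the tuples with given excess
-/

set_option autoImplicit false

open Pool.Agent.H38.AE.Statement Pool.Agent.H38.AT Pool.Agent.H71.EQ Pool.Agent.H72.EQQ
open Pool.Agent.H50.EQ.CHR Finset

namespace Pool.Agent.H50.EQQ.MOB

theorem sum_ext {k : ℕ} (v : Fin k → ℤ) : ∑ i, ext v i = 0 := by
  rw [Fin.sum_univ_castSucc]
  unfold Pool.Agent.H71.EQ.ext
  simp only [Fin.snoc_castSucc, Fin.snoc_last]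
  ring

theorem dvd_pr {n : ℕ} {x : Fin n → ℤ} {p : ℕ} (h : ¬ Loc p 0 x) : p ∣ pr x := by
  rw [pr_eq]
  have h1 : ∃ a, (p : ℤ) ∣ x a := by
    by_contra hn
    apply h
    refine ⟨fun a b _ hab => hn ⟨a, hab.1⟩, ?_⟩
    rw [if_pos rfl]
    intro a ha
    exact hn ⟨a, (dvd_pow_self _ two_ne_zero).trans ha⟩
  obtain ⟨a, ha⟩ := h1
  exact (Int.natCast_dvd.1 ha).trans (Finset.dvd_prod_of_mem _ (mem_univ a))

theorem sum_mu {P : ℕ} :
    ∑ m ∈ P.divisors, ArithmeticFunction.moebius m = if P = 1 then 1 else 0 := by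
  rw [← ArithmeticFunction.coe_mul_zeta_apply, ArithmeticFunction.moebius_mul_coe_zeta,
    ArithmeticFunction.one_apply]

end Pool.Agent.H50.EQQ.MOB

namespace Pool.Agent.H50.EQQ

open MOB

/-- MOB: the Moebius identity. -/
theorem pf_MOB (h1 : T_CHR) : T_MOB := by
  intro k E v hE hv
  classical
  set b : Finset ℕ := (pr (ext v)).primeFactors.filter
    (fun p => ¬ p ∣ E ∧ ¬ Loc p 0 (ext v)) with hb
  have mem_b : ∀ p, p ∈ b ↔ p.Prime ∧ ¬ p ∣ E ∧ ¬ Loc p 0 (ext v) := by
    intro p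
    rw [hb, mem_filter, Nat.mem_primeFactors]
    exact ⟨fun h => ⟨h.1.1, h.2⟩, fun h => ⟨⟨h.1, dvd_pr h.2.2, pr_ne hv⟩, h.2⟩⟩
  have hbp : ∀ p ∈ b, p.Prime := fun p hp => ((mem_b p).1 hp).1
  set P : ℕ := ∏ p ∈ b, p with hP
  have hP0 : P ≠ 0 := Finset.prod_ne_zero_iff.2 fun p hp => (hbp p hp).ne_zero
  have hPf : P.primeFactors = b := Nat.primeFactors_prod hbp
  have hPs : Squarefree P := by
    refine Finset.squarefree_prod_of_pairwise_isCoprime (fun p hp q hq hpq => ?_)
      fun p hp => (hbp p hp).squarefree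
    exact Nat.coprime_iff_isRelPrime.1 ((Nat.coprime_primes (hbp p hp) (hbp q hq)).2 hpq)
  have hPE : P.Coprime E := by
    refine Nat.Coprime.prod_left fun p hp => ?_
    exact ((hbp p hp).coprime_iff_not_dvd).2 ((mem_b p).1 hp).2.1
  have hfix := h1 (k + 1) (ext v) E hE hv (sum_ext v)
  refine ⟨P, fun N hN => ?_⟩
  by_cases hA : ∀ p : ℕ, p.Prime → p ∣ E → Loc p (E.factorization p) (ext v)
  · have key : ∀ m, Squarefree m → m.Coprime E → (v ∈ Bad k E m ↔ m ∣ P) := by
      intro m hm hmE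
      have hm0 : m ≠ 0 := hm.ne_zero
      constructor
      · rintro ⟨-, h2⟩
        rw [← Nat.prod_primeFactors_of_squarefree hm, Nat.prod_primeFactors_dvd_iff hP0, hPf]
        intro p hp
        have hpp := Nat.prime_of_mem_primeFactors hp
        have hpm := Nat.dvd_of_mem_primeFactors hp
        refine (mem_b p).2 ⟨hpp, fun h3 => ?_, h2 p hpp hpm⟩
        have h4 : p ∣ Nat.gcd m E := Nat.dvd_gcd hpm h3
        rw [hmE] at h4
        exact hpp.one_lt.ne' (Nat.dvd_one.1 h4)
      · intro h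
        refine ⟨hA, fun p hp hpm => ?_⟩
        have h3 : p ∈ b := by
          rw [← hPf]
          exact Nat.mem_primeFactors.2 ⟨hp, hpm.trans h, hP0⟩
        exact ((mem_b p).1 h3).2.2
    have h3 : P.divisors = (Md E N).filter (fun m => m ∣ P) := by
      ext m
      unfold Md
      rw [Nat.mem_divisors, mem_filter, mem_filter, mem_Icc]
      constructor
      · rintro ⟨h, -⟩
        exact ⟨⟨⟨Nat.pos_of_dvd_of_pos h (Nat.pos_of_ne_zero hP0),
          (Nat.le_of_dvd (Nat.pos_of_ne_zero hP0) h).trans hN⟩, hPs.squarefree_of_dvd h,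
          Nat.Coprime.coprime_dvd_left h hPE⟩, h⟩
      · rintro ⟨-, h⟩
        exact ⟨h, hP0⟩
    have h2 : ∑ m ∈ Md E N, (ArithmeticFunction.moebius m : ℝ) *
        (Bad k E m).indicator (fun _ => (1 : ℝ)) v =
        ∑ m ∈ P.divisors, (ArithmeticFunction.moebius m : ℝ) := by
      rw [h3, Finset.sum_filter]
      refine sum_congr rfl fun m hm => ?_
      unfold Md at hm
      obtain ⟨-, hm1, hm2⟩ := mem_filter.1 hm
      by_cases h : m ∣ P
      · rw [if_pos h, Set.indicator_of_mem ((key m hm1 hm2).2 h), mul_one]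
      · rw [if_neg h, Set.indicator_of_notMem (fun h' => h ((key m hm1 hm2).1 h')), mul_zero]
    rw [h2, ← Int.cast_sum, sum_mu]
    by_cases hP1 : P = 1
    · rw [if_pos hP1, Int.cast_one, Set.indicator_of_mem]
      refine hfix.2 fun p hp => ?_
      by_cases hpE : p ∣ E
      · exact hA p hp hpE
      · rw [Nat.factorization_eq_zero_of_not_dvd hpE]
        by_contra h4
        have h5 : p ∈ b := (mem_b p).2 ⟨hp, hpE, h4⟩
        rw [← hPf, hP1, Nat.primeFactors_one] at h5
        exact absurd h5 (Finset.notMem_empty p)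
    · rw [if_neg hP1, Int.cast_zero, Set.indicator_of_notMem]
      intro h4
      have h5 := hfix.1 h4
      apply hP1
      have h6 : b = ∅ := by
        refine Finset.eq_empty_of_forall_notMem fun p hp => ?_
        obtain ⟨hp1, hp2, hp3⟩ := (mem_b p).1 hp
        have h7 := h5 p hp1
        rw [Nat.factorization_eq_zero_of_not_dvd hp2] at h7
        exact hp3 h7
      rw [hP, h6, Finset.prod_empty]
  · rw [Set.indicator_of_notMem, Finset.sum_eq_zero]
    · intro m _
      rw [Set.indicator_of_notMem, mul_zero]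
      intro h
      exact hA h.1
    · intro h
      exact hA fun p hp _ => hfix.1 h p hp

end Pool.Agent.H50.EQQ
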